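import Mathlib
import Pool.Agent.R488.Cub.Main

/-!
# `∑_{k<p} C(-1/3,k)^2 9^k = L - p/L` modulo `p^2`

Proof: the truncated sum is a value at `u = 0` of a family which is affine modulo `p^2`; at
`u = p/6` and `u = p/3` it terminates and has a closed form (strange evaluations of `2F1(9)`).  The
result is `C(2(p-1)/3, (p-1)/3)`, which is evaluated by the cubic Jacobi sum modulo `p^2`.
-/

set_option autoImplicit false

namespace Pool.Agent.Results.MP_2293c7_nt.CubicBinomialSum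

open Finset

/-- the binomial coefficient `a (a-1) ⋯ (a-k+1) / k!` for rational `a` -/
def binom (a : ℚ) (k : ℕ) : ℚ := (∏ i ∈ range k, (a - i)) / k.factorial

/-- `x ≡ y (mod p^2)` for rational numbers `x`, `y` with denominators prime to `p`:
`(x - y) / p^2` has denominator prime to `p`. -/
def CongrSq (p : ℕ) (x y : ℚ) : Prop :=
  ¬ p ∣ x.den ∧ ¬ p ∣ y.den ∧ ¬ p ∣ ((x - y) / (p : ℚ) ^ 2).den

open Pool.Agent.R439.PL Pool.Agent.R488.Cub

theorem congr_of_EQ {p : ℕ} [Fact p.Prime] {x y : ℚ} (h : EQ p 2 x y) : CongrSq p x y := by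
  refine ⟨?_, ?_, den_of_I h.2.2⟩
  · have := den_of_I (p := p) (k := 0) (I_zero_iff.2 h.1)
    rwa [pow_zero, div_one] at this
  · have := den_of_I (p := p) (k := 0) (I_zero_iff.2 h.2.1)
    rwa [pow_zero, div_one] at this

theorem result (p : ℕ) (hp : p.Prime) (h3 : p % 3 = 1) :
    (∃ L M : ℤ, 4 * (p : ℤ) = L ^ 2 + 27 * M ^ 2 ∧ L % 3 = 2) ∧
    ∀ L M : ℤ, 4 * (p : ℤ) = L ^ 2 + 27 * M ^ 2 → L % 3 = 2 →
      CongrSq p (∑ k ∈ range p, binom (-1 / 3) k ^ 2 * 9 ^ k) ((L : ℚ) - p / L) ∧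
      CongrSq p (∑ k ∈ range p, binom (-1 / 3) k ^ 2 * 9 ^ k)
        ((2 * ((p - 1) / 3)).choose ((p - 1) / 3) : ℚ) := by
  haveI : Fact p.Prime := ⟨hp⟩
  obtain ⟨j, hj⟩ : ∃ j, p = 6 * j + 1 := by
    have h2 : p % 2 = 1 := by
      rcases hp.eq_two_or_odd with h | h
      · subst h; omega
      · exact h
    exact ⟨p / 6, by omega⟩
  constructor
  · obtain ⟨L, M, h1, h2, -⟩ := jac p j hj
    exact ⟨-L, M, by rw [h1]; ring, by omega⟩
  · intro L M h1 h2
    have h4 := main_L (p := p) hj h1 h2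
    have h5 := choose_L (p := p) hj h1 h2
    have e1 : (p - 1) / 3 = 2 * j := by omega
    have e2 : 2 * (2 * j) = 4 * j := by ring
    rw [e1, e2]
    exact ⟨congr_of_EQ h4, congr_of_EQ (h4.trans h5.symm)⟩

end Pool.Agent.Results.MP_2293c7_nt.CubicBinomialSum
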